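import Pool.Agent.H49.SW.Stm

set_option autoImplicit false

/-!
# R5: the degree drops
-/

namespace Pool.Agent.H62.SW

open Finset MvPolynomial
open Pool.Agent.H49.SW

/-- the leading coefficient of a polynomial with nonnegative values is nonnegative -/
lemma top_nonneg (c : ℕ → ℤ) (D : ℕ)
    (h : ∀ z : ℕ, 1 ≤ z → 0 ≤ ∑ n ∈ range (D + 1), (z : ℤ) ^ n * c n) : 0 ≤ c D := by
  by_contra hc
  push Not at hc
  set S : ℤ := ∑ n ∈ range D, |c n| with hS
  have hS0 : 0 ≤ S := Finset.sum_nonneg fun n _ => abs_nonneg _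
  obtain ⟨z, hz⟩ : ∃ z : ℕ, (z : ℤ) = S + 1 := ⟨(S + 1).toNat, by omega⟩
  have hz1 : 1 ≤ z := by omega
  have hz1' : (1 : ℤ) ≤ z := by exact_mod_cast hz1
  have h1 := h z hz1
  rw [Finset.sum_range_succ] at h1
  rcases D with _ | D
  · simp at h1
    omega
  · have h2 : ∑ n ∈ range (D + 1), (z : ℤ) ^ n * c n ≤ (z : ℤ) ^ D * S := by
      rw [hS, Finset.mul_sum]
      refine Finset.sum_le_sum fun n hn => ?_
      have h3 : (z : ℤ) ^ n ≤ (z : ℤ) ^ D :=
        pow_le_pow_right₀ hz1' (by have := Finset.mem_range.1 hn; omega)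
      calc (z : ℤ) ^ n * c n ≤ (z : ℤ) ^ n * |c n| :=
            mul_le_mul_of_nonneg_left (le_abs_self _) (by positivity)
        _ ≤ (z : ℤ) ^ D * |c n| := mul_le_mul_of_nonneg_right h3 (abs_nonneg _)
    have h4 : (z : ℤ) ^ (D + 1) * c (D + 1) ≤ - (z : ℤ) ^ (D + 1) := by
      have : (0 : ℤ) < (z : ℤ) ^ (D + 1) := by positivity
      nlinarith
    have h5 : (0 : ℤ) < (z : ℤ) ^ D := by positivity
    have h6 : (z : ℤ) ^ (D + 1) = (z : ℤ) ^ D * z := pow_succ _ _
    nlinarith

lemma eval_hom {α : Type} [Fintype α] (φ : MvPolynomial α ℤ) (n : ℕ) (hφ : φ.IsHomogeneous n)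
    (t : α → ℕ) (z : ℕ) : evt (fun x => z * t x) φ = (z : ℤ) ^ n * evt t φ := by
  classical
  rw [evt, evt, eval_eq', eval_eq', Finset.mul_sum]
  refine Finset.sum_congr rfl fun d hd => ?_
  have h1 : ∑ i, d i = n := by
    have h2 := hφ.degree_eq_sum_deg_support hd
    rw [h2]
    exact (Finset.sum_subset (Finset.subset_univ _)
      (fun x _ hx => Finsupp.notMem_support_iff.1 hx)).symm
  have h3 : ∏ i, ((z * t i : ℕ) : ℤ) ^ d i = (z : ℤ) ^ n * ∏ i, (t i : ℤ) ^ d i := by
    rw [← h1, ← Finset.prod_pow_eq_pow_sum, ← Finset.prod_mul_distrib]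
    refine Finset.prod_congr rfl fun i _ => ?_
    push_cast
    rw [mul_pow]
  rw [h3]
  ring

lemma evt_ray {α : Type} [Fintype α] (p : MvPolynomial α ℤ) (N : ℕ) (hN : p.totalDegree ≤ N)
    (t : α → ℕ) (z : ℕ) : evt (fun x => z * t x) p =
      ∑ n ∈ range (N + 1), (z : ℤ) ^ n * evt t (homogeneousComponent n p) := by
  have h1 : ∑ n ∈ range (N + 1), homogeneousComponent n p = p := by
    conv_rhs => rw [← sum_homogeneousComponent (φ := p)]
    refine (Finset.sum_subset ?_ ?_).symm
    · intro x hx
      simp only [Finset.mem_range] at hx ⊢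
      omega
    · intro x _ hx
      simp only [Finset.mem_range, not_lt] at hx
      exact homogeneousComponent_eq_zero _ _ (by omega)
  conv_lhs => rw [← h1]
  rw [evt, map_sum]
  refine Finset.sum_congr rfl fun n _ => ?_
  exact eval_hom _ n (homogeneousComponent_isHomogeneous n p) t z

theorem sDrop : SDrop := by
  intro α _ _ q hq m hm x
  by_contra hx
  push Not at hx
  set P : MvPolynomial α ℤ := ∑ x, X x * q x with hP
  set D : ℕ := (q x).totalDegree with hD
  -- the top component vanishes at all points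
  have key : ∀ t : α → ℕ, (∀ y, 1 ≤ t y) → evt t (homogeneousComponent D (q x)) = 0 := by
    intro t ht
    have hz : ∀ z : ℕ, 1 ≤ z → ∀ y, 1 ≤ z * t y := fun z hz y =>
      Nat.one_le_iff_ne_zero.2 (Nat.mul_ne_zero (by omega) (by have := ht y; omega))
    have h1 : 0 ≤ evt t (homogeneousComponent D (q x)) := by
      refine top_nonneg (fun n => evt t (homogeneousComponent n (q x))) D fun z hz1 => ?_
      rw [← evt_ray (q x) D le_rfl t z]
      exact hq x _ (hz z hz1)
    have h2 : 0 ≤ - ((t x : ℤ) * evt t (homogeneousComponent D (q x))) := by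
      have h3 := top_nonneg (fun n => evt t (homogeneousComponent n P) -
        (t x : ℤ) * (if n = 0 then 0 else evt t (homogeneousComponent (n - 1) (q x)))) (D + 1) ?_
      · rw [homogeneousComponent_eq_zero (D + 1) P (by omega)] at h3
        simpa [evt] using h3
      · intro z hz1
        have h4 : ∑ n ∈ range (D + 1 + 1), (z : ℤ) ^ n * (evt t (homogeneousComponent n P) -
            (t x : ℤ) * (if n = 0 then 0 else evt t (homogeneousComponent (n - 1) (q x)))) =
            evt (fun y => z * t y) P - (z : ℤ) * t x * evt (fun y => z * t y) (q x) := by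
          rw [evt_ray P (D + 1) (by omega) t z, evt_ray (q x) D le_rfl t z]
          simp only [mul_sub, Finset.sum_sub_distrib]
          congr 1
          rw [Finset.sum_range_succ', Finset.mul_sum]
          simp only [if_true, mul_zero, add_zero, Nat.succ_ne_zero, if_false,
            Nat.add_sub_cancel]
          refine Finset.sum_congr rfl fun n _ => ?_
          ring
        rw [h4]
        have h5 : evt (fun y => z * t y) P =
            ∑ y, ((z : ℤ) * t y) * evt (fun y => z * t y) (q y) := by
          rw [hP, evt, map_sum]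
          refine Finset.sum_congr rfl fun y _ => ?_
          rw [map_mul, eval_X]
          push_cast
          rfl
        rw [h5, sub_nonneg]
        refine Finset.single_le_sum (f := fun y => ((z : ℤ) * t y) *
          evt (fun y => z * t y) (q y)) (fun y _ => ?_) (Finset.mem_univ x)
        exact mul_nonneg (by positivity) (hq y _ (hz z hz1))
    have h6 : (1 : ℤ) ≤ t x := by exact_mod_cast ht x
    nlinarith
  -- so it is zero
  have h0 : homogeneousComponent D (q x) = 0 := by
    refine funext_set (fun _ : α => {a : ℤ | 1 ≤ a}) (fun _ => Set.Ici_infinite 1) ?_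
    intro v hv
    rw [map_zero]
    have hv' : ∀ y, 1 ≤ v y := fun y => hv y (Set.mem_univ y)
    have h1 := key (fun y => (v y).toNat) (fun y => by have := hv' y; omega)
    have h2 : (fun y => (((v y).toNat : ℕ) : ℤ)) = v := by
      funext y
      have := hv' y
      omega
    rw [evt, h2] at h1
    exact h1
  have hne : (q x).support.Nonempty := by
    rw [Finset.nonempty_iff_ne_empty]
    intro h
    have : q x = 0 := by rwa [MvPolynomial.support_eq_empty] at h
    rw [hD, this, totalDegree_zero] at hx
    omega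
  obtain ⟨s, hs, hs'⟩ := Finset.exists_mem_eq_sup _ hne (fun s : α →₀ ℕ => s.sum fun _ e => e)
  have h7 : coeff s (homogeneousComponent D (q x)) = coeff s (q x) := by
    rw [coeff_homogeneousComponent, if_pos]
    rw [hD, totalDegree, hs', Finsupp.degree, Finsupp.sum]
    rfl
  rw [h0, coeff_zero] at h7
  exact (MvPolynomial.mem_support_iff.1 hs) h7.symm

end Pool.Agent.H62.SW
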